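import Pool.Agent.Gen.TY.GFS.GFS_000
import Pool.Agent.Gen.TY.GFS.GFS_001
import Pool.Agent.Helper85.TY.GSmallIso
import Pool.Agent.Helper16.TY.RunFin

/-! MP_8ee768_co, project TH-Y': the rows `m = 0, 2, 4` of the glued types are complete. -/

set_option autoImplicit false

namespace Pool.Agent.Gen.TY.GFS

open Pool.Agent.Helper67.TY
open Pool.Agent.Helper67.GT (NT gG)
open Pool.Agent.Helper47.GM (lanesM)
open Pool.Agent.Helper54.TY (GlueN)
open Pool.Agent.Helper79.CV
open Pool.Agent.Helper85.TY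

theorem flag0 : FlagM 0 0 24746 :=
  GFS_000.flag0.app (flagM_of_card (by norm_num) GFS_000.cards)

theorem flag2 : FlagM 2 0 24746 :=
  GFS_000.flag2.app (flagM_of_card (by norm_num) GFS_000.cards)

theorem flag4 : FlagM 4 0 24746 :=
  GFS_000.flag4.app (flagM_of_card (by norm_num) GFS_000.cards)

theorem reps_eq : Pool.Agent.Helper16.TY.reps = repsOf 24746 Pool.Agent.Helper16.TY.Tab.tv := rfl

/-- **the rows `m = 0, 2, 4` of the glued types are complete** -/
theorem glueSmall (hR : RootOK 6 (fun _ => True) Pool.Agent.Helper16.TY.reps)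
    (hI : IsoSeg 0 NT) (hK : KeyInc NT gG) : ∀ m, m ≤ 5 → Even m → ∀ n, 2 * n = 114 + m →
    ∀ t < NT, GlueN n (gG t) (lanesM m t) := by
  intro m hm he
  have htv : ∀ j < 24746, Pool.Agent.Helper16.TY.Good 6 (Pool.Agent.Helper16.TY.Tab.tv j) :=
    fun j _ => Pool.Agent.Helper16.TY.Tab.tv_good j
  have h3 : m = 0 ∨ m = 2 ∨ m = 4 := by
    obtain ⟨k, hk⟩ := he
    omega
  rcases h3 with rfl | rfl | rfl
  · exact glueSmall_of (by norm_num) reps_eq hR htv flag0 hI hK GFS_001.cl0
  · exact glueSmall_of (by norm_num) reps_eq hR htv flag2 hI hK GFS_001.cl2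
  · exact glueSmall_of (by norm_num) reps_eq hR htv flag4 hI hK GFS_001.cl4

end Pool.Agent.Gen.TY.GFS
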